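import Pool.Agent.H67.GRM.D

set_option autoImplicit false

/-- At most `85 √x (log x)^(3/2)` integers `1 ≤ n ≤ x` satisfy `s(n) = ⌊n/2⌋`. -/
theorem Pool.Agent.Results.MP_bdd3c1_nt.CountingBound.result :
    ∀ x : ℕ, 2 ≤ x →
      (((Finset.Icc 1 x).filter (fun n : ℕ => ∑ d ∈ n.properDivisors, d = n / 2)).card : ℝ) ≤
        85 * Real.sqrt x * Real.log x ^ (3 / 2 : ℝ) :=
  fun x hx => Pool.H67.GRM.main x hx
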