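import Mathlib

/-!
# Euler form of the solutions of `s(n) = ⌊n/2⌋` (MP_bdd3c1_nt)
-/

set_option autoImplicit false

namespace Pool.Agent.Results.MP_bdd3c1_nt.EulerForm

open NumberTheorySymbols

/-- the only even solution is `2` -/
theorem odd_of (n : ℕ) (hn : 0 < n) (h2 : n ≠ 2) (h : ∑ d ∈ n.properDivisors, d = n / 2) :
    Odd n := by
  rcases Nat.even_or_odd n with he | ho
  · exfalso
    obtain ⟨m, hm⟩ := he
    have hm1 : 1 < m := by omega
    have hsub : ({1, m} : Finset ℕ) ⊆ n.properDivisors := by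
      intro x hx
      simp only [Finset.mem_insert, Finset.mem_singleton] at hx
      rw [Nat.mem_properDivisors]
      rcases hx with rfl | rfl
      · exact ⟨one_dvd _, by omega⟩
      · exact ⟨⟨2, by omega⟩, by omega⟩
    have h1 := Finset.sum_le_sum_of_subset (f := fun d : ℕ => d) hsub
    rw [Finset.sum_pair (by omega)] at h1
    omega
  · exact ho

/-- the equation in terms of `S = σ(n)` -/
theorem eqn (n : ℕ) (ho : Odd n) (h : ∑ d ∈ n.properDivisors, d = n / 2) :
    2 * (∑ d ∈ n.divisors, d) + 1 = 3 * n := by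
  have h1 := Nat.sum_divisors_eq_sum_properDivisors_add_self (n := n)
  obtain ⟨k, hk⟩ := ho
  omega

theorem dvd_geom (p j : ℕ) : p + 1 ∣ ∑ k ∈ Finset.range (2 * j), p ^ k := by
  induction j with
  | zero => simp
  | succ j ih =>
    have e : 2 * (j + 1) = 2 * j + 1 + 1 := by ring
    rw [e, Finset.sum_range_succ, Finset.sum_range_succ, add_assoc]
    refine dvd_add ih ⟨p ^ (2 * j), ?_⟩
    ring

/-- `p + 1` divides `σ(n)` if the exponent of `p` in `n` is odd -/
theorem dvd_sigma (n p : ℕ) (hn : n ≠ 0) (hp : p.Prime) (ho : Odd (n.factorization p)) :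
    p + 1 ∣ ∑ d ∈ n.divisors, d := by
  have h1 : ∑ d ∈ n.divisors, d = ArithmeticFunction.sigma 1 n := by
    rw [ArithmeticFunction.sigma_one_apply]
  rw [h1]
  have h2 : p ^ n.factorization p * (n / p ^ n.factorization p) = n :=
    Nat.ordProj_mul_ordCompl_eq_self n p
  have h3 : (p ^ n.factorization p).Coprime (n / p ^ n.factorization p) :=
    Nat.Coprime.pow_left _ (Nat.coprime_ordCompl hp hn)
  have h4 := ArithmeticFunction.isMultiplicative_sigma (k := 1) |>.map_mul_of_coprime h3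
  rw [h2] at h4
  rw [h4]
  apply Dvd.dvd.mul_right
  rw [ArithmeticFunction.sigma_one_apply_prime_pow hp]
  obtain ⟨j, hj⟩ := ho
  have e : n.factorization p + 1 = 2 * (j + 1) := by omega
  rw [e]
  exact dvd_geom p (j + 1)

/-- a number `3 mod 4` has a prime factor `3 mod 4` -/
theorem prime_three (s : ℕ) : s % 4 = 3 → ∃ p, p.Prime ∧ p ∣ s ∧ p % 4 = 3 := by
  induction s using Nat.strong_induction_on with
  | _ s ih =>
    intro hs
    have hs1 : s ≠ 1 := by omega
    obtain ⟨p, hp, hps⟩ := Nat.exists_prime_and_dvd hs1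
    by_cases h3 : p % 4 = 3
    · exact ⟨p, hp, hps, h3⟩
    obtain ⟨r, hr⟩ := hps
    have hp2 : p % 4 = 1 := by
      have h5 : p % 2 = 1 := by
        by_contra hc
        have h6 : p % 2 = 0 := by omega
        have h7 : s % 2 = 0 := by rw [hr, Nat.mul_mod, h6]; simp
        omega
      omega
    have hr3 : r % 4 = 3 := by
      rw [hr, Nat.mul_mod, hp2, one_mul, Nat.mod_mod] at hs
      exact hs
    have hlt : r < s := by
      rw [hr]
      have := hp.two_le
      nlinarith [Nat.pos_of_ne_zero (show r ≠ 0 by rintro rfl; omega)]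
    obtain ⟨q, hq, hqr, hq3⟩ := ih r hlt hr3
    exact ⟨q, hq, hqr.trans ⟨p, by rw [hr, mul_comm]⟩, hq3⟩

/-- `3 s` is a square modulo the odd divisors of `σ(n)`, `n = s t²` -/
theorem jac_one (s t S d : ℕ) (hS : 2 * S + 1 = 3 * (s * t ^ 2)) (hd : d ∣ S) :
    J(((3 * s : ℕ) : ℤ) | d) = 1 := by
  obtain ⟨e, rfl⟩ := hd
  have hZ : 2 * ((d : ℤ) * e) + 1 = 3 * (s * t ^ 2) := by exact_mod_cast hS
  have hcop : Int.gcd (t : ℤ) d = 1 := by
    rw [← Int.isCoprime_iff_gcd_eq_one]
    exact ⟨3 * s * t, -(2 * e), by linarith [hZ]⟩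
  have h1 : J(((3 * s : ℕ) : ℤ) * (t : ℤ) ^ 2 | d) = J(1 | d) := by
    apply jacobiSym.mod_left'
    have h2 : ((3 * s : ℕ) : ℤ) * (t : ℤ) ^ 2 = 1 + d * (2 * e) := by
      push_cast
      linarith [hZ]
    rw [h2, Int.add_mul_emod_self_left]
  rw [jacobiSym.mul_left, jacobiSym.sq_one' hcop, mul_one, jacobiSym.one_left] at h1
  exact h1

theorem result (n : ℕ) (hn : 0 < n) (h2 : n ≠ 2) (h : ∑ d ∈ n.properDivisors, d = n / 2) :
    Odd n ∧
    ((∃ t : ℕ, n = t ^ 2 ∧ ∀ d : ℕ, d ∣ ∑ e ∈ n.divisors, e → d % 12 = 1 ∨ d % 12 = 11) ∨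
      (∃ t : ℕ, n = 3 * t ^ 2) ∨
      (∃ s t : ℕ, n = s * t ^ 2 ∧ Squarefree s ∧ s % 8 = 3 ∧ 2 ≤ s.primeFactors.card ∧
        (∀ p ∈ s.primeFactors, p % 3 ≠ 2) ∧
        ∀ d : ℕ, d ∣ ∑ e ∈ n.divisors, e → jacobiSym (d : ℤ) (3 * s) = 1)) := by
  have ho := odd_of n hn h2 h
  have hS := eqn n ho h
  refine ⟨ho, ?_⟩
  obtain ⟨s, t, hst, hsq⟩ := Nat.sq_mul_squarefree n
  have hnst : n = s * t ^ 2 := by rw [← hst]; ring
  clear hst
  obtain ⟨S, hSdef⟩ : ∃ S, S = ∑ d ∈ n.divisors, d := ⟨_, rfl⟩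
  rw [← hSdef] at hS ⊢
  have hS' : 2 * S + 1 = 3 * (s * t ^ 2) := by rw [← hnst]; exact hS
  have hs0 : s ≠ 0 := hsq.ne_zero
  have ht0 : t ≠ 0 := by
    rintro rfl
    omega
  have hto : t % 2 = 1 := by
    by_contra hc
    have h6 : t % 2 = 0 := by omega
    have h7 : n % 2 = 0 := by
      rw [hnst, pow_two, Nat.mul_mod, Nat.mul_mod t t, h6]
      simp
    obtain ⟨k, hk⟩ := ho
    omega
  have ht8 : t ^ 2 % 8 = 1 := by
    have h8 : t % 8 = 1 ∨ t % 8 = 3 ∨ t % 8 = 5 ∨ t % 8 = 7 := by omega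
    rw [pow_two, Nat.mul_mod]
    rcases h8 with h8 | h8 | h8 | h8 <;> rw [h8]
  have hn8 : n % 8 = s % 8 := by
    rw [hnst, Nat.mul_mod, ht8, mul_one, Nat.mod_mod]
  have hso : s % 2 = 1 := by
    obtain ⟨k, hk⟩ := ho
    omega
  have h3S : ¬ 3 ∣ S := by omega
  -- `p + 1` divides `S`
  have hdvd : ∀ p : ℕ, p.Prime → p ∣ s → p + 1 ∣ S := by
    intro p hp hps
    rw [hSdef]
    apply dvd_sigma n p hn.ne' hp
    have h1 : s.factorization p = 1 := by
      have h3 := (Nat.squarefree_iff_factorization_le_one hs0).1 hsq p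
      have h4 := hp.factorization_pos_of_dvd hs0 hps
      omega
    rw [hnst, Nat.factorization_mul hs0 (pow_ne_zero 2 ht0), Nat.factorization_pow,
      Finsupp.add_apply, Finsupp.smul_apply, h1, smul_eq_mul]
    exact ⟨t.factorization p, by ring⟩
  by_cases hs1 : s = 1
  · left
    refine ⟨t, by rw [hnst, hs1, one_mul], ?_⟩
    intro d hd
    have hSo : S % 2 = 1 := by
      rw [hs1] at hn8
      omega
    have hdo : Odd d := by
      rw [Nat.odd_iff]
      by_contra hc
      have h6 : 2 ∣ d := by omega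
      have h7 := h6.trans hd
      omega
    have hd3 : ¬ 3 ∣ d := fun hc => h3S (hc.trans hd)
    have hJ := jac_one s t S d hS' hd
    rw [hs1, mul_one, jacobiSym.mod_right' 3 hdo] at hJ
    have hcase : d % 12 = 1 ∨ d % 12 = 5 ∨ d % 12 = 7 ∨ d % 12 = 11 := by
      obtain ⟨k, hk⟩ := hdo
      omega
    rcases hcase with h1 | h1 | h1 | h1
    · exact Or.inl h1
    · exfalso
      rw [show 4 * 3 = 12 from rfl, h1] at hJ
      norm_num at hJ
    · exfalso
      rw [show 4 * 3 = 12 from rfl, h1] at hJ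
      norm_num at hJ
    · exact Or.inr h1
  right
  by_cases hs3 : s = 3
  · left
    exact ⟨t, by rw [hnst, hs3]⟩
  right
  -- `s = 3 mod 8`
  obtain ⟨p0, hp0, hp0s⟩ := Nat.exists_prime_and_dvd hs1
  have hs4 : s % 4 = 3 := by
    have h5 := hdvd p0 hp0 hp0s
    have h6 : 2 ∣ p0 + 1 := by
      have h7 : p0 % 2 = 1 := by
        by_contra hc
        have h8 : 2 ∣ p0 := by omega
        have h9 := h8.trans hp0s
        omega
      omega
    have h7 := h6.trans h5
    omega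
  have hs8 : s % 8 = 3 := by
    obtain ⟨q, hq, hqs, hq3⟩ := prime_three s hs4
    have h5 := hdvd q hq hqs
    have h6 : 4 ∣ q + 1 := by omega
    have h7 := h6.trans h5
    omega
  have hmod3 : ∀ p ∈ s.primeFactors, p % 3 ≠ 2 := by
    intro p hp hc
    have h5 := hdvd p (Nat.prime_of_mem_primeFactors hp) (Nat.dvd_of_mem_primeFactors hp)
    have h6 : 3 ∣ p + 1 := by omega
    exact h3S (h6.trans h5)
  have hJall : ∀ d : ℕ, d ∣ S → J((d : ℤ) | 3 * s) = 1 := by
    intro d hd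
    have hd0 : d ≠ 0 := by
      rintro rfl
      have := Nat.eq_zero_of_zero_dvd hd
      omega
    obtain ⟨k, m, hm, hdk⟩ := Nat.exists_eq_two_pow_mul_odd hd0
    have hmS : m ∣ S := (Dvd.intro_left _ hdk.symm).trans hd
    have h1 := jac_one s t S m hS' hmS
    have h4 : (3 * s) % 4 = 1 := by omega
    have h5 : Odd (3 * s) := by rw [Nat.odd_iff]; omega
    rw [jacobiSym.quadratic_reciprocity_one_mod_four h4 hm] at h1
    have h6 : J(2 | 3 * s) = 1 := by
      rw [jacobiSym.at_two h5]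
      have h7 : ((3 * s : ℕ) : ZMod 8) = 1 := by
        have h8 : ((3 * s : ℕ) : ZMod 8) = ((1 : ℕ) : ZMod 8) :=
          (ZMod.natCast_eq_natCast_iff _ _ _).2 (by show (3 * s) % 8 = 1 % 8; omega)
        rw [h8, Nat.cast_one]
      rw [h7]
      exact map_one _
    rw [hdk]
    push_cast
    rw [jacobiSym.mul_left, jacobiSym.pow_left, h6, one_pow, one_mul]
    exact h1
  refine ⟨s, t, hnst, hsq, hs8, ?_, hmod3, hJall⟩
  by_contra hcard
  have hne : s.primeFactors.Nonempty := ⟨p0, Nat.mem_primeFactors.2 ⟨hp0, hp0s, hs0⟩⟩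
  have hc1 : s.primeFactors.card = 1 := by
    have := Finset.card_pos.2 hne
    omega
  obtain ⟨p, hp⟩ := Finset.card_eq_one.1 hc1
  have hsp : s = p := by
    have h5 := Nat.prod_primeFactors_of_squarefree hsq
    rw [hp, Finset.prod_singleton] at h5
    exact h5.symm
  have hpp : p.Prime := Nat.prime_of_mem_primeFactors (n := s) (by rw [hp]; simp)
  have h3 : p % 3 = 1 := by
    have h5 := hmod3 p (by rw [hp]; simp)
    have h6 : p % 3 ≠ 0 := by
      intro hc
      have h7 : 3 ∣ p := by omega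
      have h8 := (Nat.prime_dvd_prime_iff_eq Nat.prime_three hpp).1 h7
      exact hs3 (by rw [hsp, ← h8])
    omega
  have hd := hJall (p + 1) (hdvd p hpp (by rw [hsp]))
  have ip : NeZero p := ⟨hpp.ne_zero⟩
  rw [hsp, jacobiSym.mul_right] at hd
  have h5 : J(((p + 1 : ℕ) : ℤ) | p) = 1 := by
    have h6 : J(((p + 1 : ℕ) : ℤ) | p) = J(1 | p) := by
      apply jacobiSym.mod_left'
      push_cast
      rw [add_comm, Int.add_emod_right]
    rw [h6, jacobiSym.one_left]
  have h6 : J(((p + 1 : ℕ) : ℤ) | 3) = J(2 | 3) := by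
    apply jacobiSym.mod_left'
    push_cast
    omega
  rw [h5, h6] at hd
  norm_num at hd

end Pool.Agent.Results.MP_bdd3c1_nt.EulerForm
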