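import Pool.Agent.H24.MV.FewPrimeFactors

/-!
# A bound for the solutions of `s(n) = ⌊n/2⌋` with few prime factors (MP_bdd3c1_nt)
-/

set_option autoImplicit false

namespace Pool.Agent.Results.MP_bdd3c1_nt.FewPrimeFactors

theorem result (n : ℕ) (hn : 0 < n) (h2 : n ≠ 2) (h : ∑ d ∈ n.properDivisors, d = n / 2) :
    n < 3 ^ ((n.factorization 3 + 1) * 4 ^ (n.primeFactors.erase 3).card) :=
  Pool.H24.MV.FewPrimeFactors.result n hn h2 h

end Pool.Agent.Results.MP_bdd3c1_nt.FewPrimeFactors
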