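import Pool.Agent.H22.BDD.Three

/-!
# A solution of `s(n) = ⌊n/2⌋`, not `2` and not a power of `3`, has at least three prime factors
besides `3` (MP_bdd3c1_nt)
-/

set_option autoImplicit false

theorem Pool.Agent.Results.MP_bdd3c1_nt.ThreePrimes.result (n : ℕ) (hn : 0 < n) (h2 : n ≠ 2)
    (h3 : ∀ k : ℕ, n ≠ 3 ^ k) (h : ∑ d ∈ n.properDivisors, d = n / 2) :
    3 ≤ (n.primeFactors.erase 3).card :=
  Pool.Agent.H22.BDD.Three.three n hn h2 h3 h
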